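import Pool.Agent.K3h22.E8.Stm8
import Pool.Agent.K3h22.ET.RESQ
import Pool.Agent.K3h23.UG.Alg

/-! Brick `ALG8` of the project E8 (helper22, MP_209724_lc): the algebraic model `t_ALG` of helper23
with the relations of the `g i` and with the resultants `t_RESQ` of helper22. -/

set_option autoImplicit false

namespace Pool.Agent.K3h77.E8

open Polynomial IntermediateField Pool.Agent.K3h23.UG

theorem t_ALG8 : Pool.Agent.K3h22.E8.S_ALG8 := by
  intro n P hP A _ _ _ em hem xA hxA hy0 hyalg H hH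
  classical
  have := hP
  let Q := MvPolynomial (Fin n ⊕ Fin n) ℂ ⧸ P
  let K := FractionRing Q
  let ψ : MvPolynomial (Fin n ⊕ Fin n) ℂ →+* K :=
    (algebraMap Q K).comp (Ideal.Quotient.mk P)
  have hQK : Function.Injective (algebraMap Q K) := IsFractionRing.injective Q K
  have hψ0 : ∀ F, ψ F = 0 ↔ F ∈ P := by
    intro F
    rw [← Ideal.Quotient.eq_zero_iff_mem]
    exact map_eq_zero_iff _ hQK
  let _ : Algebra A K := ((algebraMap Q K).comp (em : A →+* Q)).toAlgebra
  have halg : ∀ a : A, algebraMap A K a = algebraMap Q K (em a) := fun g => rfl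
  have hinj : Function.Injective (algebraMap A K) := fun a b h => hem (hQK h)
  have : CharZero K := charZero_of_injective_ringHom (f := ψ.comp MvPolynomial.C)
    (RingHom.injective _)
  have haev : ∀ (g : A[X]) (x : Q), aeval (algebraMap Q K x) g =
      algebraMap Q K (g.eval₂ (em : A →+* Q) x) := by
    intro g x
    rw [aeval_def, hom_eval₂]
    rfl
  have hy : ∀ j : Fin n, IsAlgebraic A (ψ (MvPolynomial.X (Sum.inr j))) := by
    intro j
    obtain ⟨g, hg, hg0⟩ := hyalg j
    refine ⟨g, hg, ?_⟩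
    change aeval (algebraMap Q K (Ideal.Quotient.mk P (MvPolynomial.X (Sum.inr j)))) g = 0
    rw [haev, hg0, map_zero]
  obtain ⟨θ, f, D, Δ, N, U, W, hmon, hfθ, hdvd, hD, hΔ, hN, hUW⟩ :=
    model hinj (fun j => ψ (MvPolynomial.X (Sum.inr j))) hy
  have hrow := fun j : Fin n => rowpoly (em : A →+* Q)
    (Ideal.Quotient.mk P (MvPolynomial.X (Sum.inr j)))
    (fun h => hy0 j (Ideal.Quotient.eq_zero_iff_mem.1 h)) (hyalg j)
  choose g hgc hg0 using hrow
  let Gv : Fin n ⊕ Fin n → A[X] := Sum.elim (fun i => C (D * xA i)) N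
  have hG : ∀ v, algebraMap A K D * ψ (MvPolynomial.X v) = aeval θ (Gv v) := by
    rintro (i | i)
    · change _ = aeval θ (C (D * xA i))
      rw [aeval_C, map_mul, halg (xA i), hxA i]
      rfl
    · exact hN i
  have hψC : ∀ c : ℂ, ψ (MvPolynomial.C c) = algebraMap A K (algebraMap ℂ A c) := by
    intro c
    rw [halg, AlgHom.commutes]
    rfl
  obtain ⟨g0, hg0', hg0''⟩ := nonvanish hinj ψ (algebraMap ℂ A) hψC θ f hmon hfθ hdvd D hD Gv hG H
    (fun h => hH ((hψ0 _).1 h))
  have hdeg : 0 < f.natDegree := by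
    rcases Nat.eq_zero_or_pos f.natDegree with h | h
    · exfalso
      have h1 : f = 1 := by
        rw [eq_C_of_natDegree_eq_zero h, ← Polynomial.C_1]
        congr 1
        have h2 := hmon.coeff_natDegree
        rwa [h] at h2
      rw [h1, map_one] at hfθ
      exact one_ne_zero hfθ
    · exact h
  refine ⟨f, U, W, D, Δ, g0, N, g, hmon, hdeg, hD, hΔ, hg0', hUW, hgc, hg0, ?_, ?_⟩
  · intro s J m
    obtain ⟨qq, hqq, hqq0, hqqr⟩ := Pool.Agent.K3h22.ET.t_RESQ A K s f θ D (fun a => N (J a))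
      (fun a => ψ (MvPolynomial.X (Sum.inr (J a)))) m hinj hmon hfθ hD (fun a => hN (J a))
    refine ⟨qq, hqq, hQK ?_, hqqr⟩
    have h1 : algebraMap Q K (∏ a, Ideal.Quotient.mk P (MvPolynomial.X (Sum.inr (J a))) ^ m a) =
        ∏ a, ψ (MvPolynomial.X (Sum.inr (J a))) ^ m a := by
      rw [map_prod]
      refine Finset.prod_congr rfl fun a _ => ?_
      rw [map_pow]
      rfl
    rw [map_zero, ← haev, h1]
    exact hqq0
  intro χ t Y hY hχD ht
  have hc : ∀ c : ℂ, (χ : A →+* ℂ) (algebraMap ℂ A c) = c := fun c => χ.commutes c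
  have hev : ∀ p : A[X], aeval θ p = 0 → (p.map (χ : A →+* ℂ)).eval t = 0 := by
    intro p hp
    obtain ⟨p', hp'⟩ := hdvd p hp
    rw [hp', Polynomial.map_mul, eval_mul, ht, zero_mul]
  have hq : ∀ v, (χ : A →+* ℂ) D * (Sum.elim (fun i => χ (xA i)) Y : Fin n ⊕ Fin n → ℂ) v =
      ((Gv v).map (χ : A →+* ℂ)).eval t := by
    rintro (i | i)
    · change χ D * χ (xA i) = ((C (D * xA i)).map (χ : A →+* ℂ)).eval t
      rw [Polynomial.map_C, eval_C, map_mul]
      rfl
    · exact hY i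
  refine ⟨fun G hGP => ?_, fun i => ?_, fun i a ha => ?_, fun h0 => ?_⟩
  · exact vanish ψ (algebraMap ℂ A) hψC θ f hdvd D Gv hG G ((hψ0 G).2 hGP) χ t _ hc hq hχD ht
  · have h1 : aeval θ ((scaleRoots (g i) D).comp (N i)) = 0 := by
      rw [aeval_comp, ← hN i, aeval_def, scaleRoots_eval₂_mul]
      have h2 : eval₂ (algebraMap A K) (ψ (MvPolynomial.X (Sum.inr i))) (g i) =
          algebraMap Q K ((g i).eval₂ (em : A →+* Q)
            (Ideal.Quotient.mk P (MvPolynomial.X (Sum.inr i)))) := haev (g i) _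
      rw [h2, hg0, map_zero, mul_zero]
    have h3 := hev _ h1
    rw [Polynomial.map_comp, eval_comp, ← hY i, eval_map] at h3
    have h4 := scaleRoots_eval₂_mul (p := g i) (χ : A →+* ℂ) (Y i) D
    have h5 : ((χ : A →+* ℂ) D) ^ (g i).natDegree * eval₂ (χ : A →+* ℂ) (Y i) (g i) = 0 :=
      h4.symm.trans h3
    rw [eval_map]
    exact (mul_eq_zero.1 h5).resolve_left (pow_ne_zero _ hχD)
  · have h1 : aeval θ (C (D * a) - N i) = 0 := by
      rw [map_sub, aeval_C, map_mul, ← hN i, halg a, ha]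
      exact sub_self _
    have h3 := hev _ h1
    rw [Polynomial.map_sub, Polynomial.map_C, eval_sub, eval_C, ← hY i, map_mul] at h3
    have h4 : χ D * χ a = χ D * Y i := sub_eq_zero.1 h3
    exact (mul_left_cancel₀ hχD h4).symm
  · exact hg0'' χ t _ hc hq ht h0

end Pool.Agent.K3h77.E8
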